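import Pool.Agent.W423.NX.Defs
import Pool.Agent.W372.NC.Zeta

set_option autoImplicit false

/-! NX, task ZetaP: from the line to the zeta function of a product. -/

namespace Pool.Agent.W806.NX

open MvPolynomial Pool.Agent.H628R4.TZ Pool.Agent.W425.SM
open Pool.Agent.W423.MG Pool.Agent.W423.NC Pool.Agent.W423.NX
open Pool.Agent.W372.NC (prod_id2 type_sub hJ_eq)

variable {r N P : ℕ}

/-- the embedding of the polynomials -/
noncomputable abbrev am : Polynomial ℂ →+* RatFunc ℂ := algebraMap (Polynomial ℂ) (RatFunc ℂ)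

lemma am_inj {a b : Polynomial ℂ} (h : am a = am b) : a = b :=
  RatFunc.algebraMap_injective ℂ h

lemma am_ne {a : Polynomial ℂ} (h : a ≠ 0) : am a ≠ 0 := fun h' =>
  h (am_inj (h'.trans (map_zero am).symm))

/-- `z` is a rational function with values `F s` at the positive points -/
def Rp (z : RatFunc ℂ) (F : ℝ → ℂ) : Prop :=
  ∃ A D : Polynomial ℂ, (∀ s : ℝ, 0 < s → D.eval (s : ℂ) ≠ 0) ∧ z * am D = am A ∧
    ∀ s : ℝ, 0 < s → F s * D.eval (s : ℂ) = A.eval (s : ℂ)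

lemma Rp.poly (q : Polynomial ℂ) : Rp (am q) (fun s => q.eval (s : ℂ)) :=
  ⟨q, 1, fun s _ => by simp, by simp, fun s _ => by simp⟩

lemma Rp.zero : Rp (0 : RatFunc ℂ) (fun _ => 0) := by
  have := Rp.poly 0
  simpa using this

lemma Rp.add {z z' : RatFunc ℂ} {F F' : ℝ → ℂ} (h : Rp z F) (h' : Rp z' F') :
    Rp (z + z') (fun s => F s + F' s) := by
  obtain ⟨A, D, h1, h2, h3⟩ := h
  obtain ⟨A', D', h1', h2', h3'⟩ := h'
  refine ⟨A * D' + A' * D, D * D', fun s hs => ?_, ?_, fun s hs => ?_⟩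
  · rw [Polynomial.eval_mul]; exact mul_ne_zero (h1 s hs) (h1' s hs)
  · rw [map_mul, map_add, map_mul, map_mul, ← h2, ← h2']; ring
  · rw [Polynomial.eval_mul, Polynomial.eval_add, Polynomial.eval_mul, Polynomial.eval_mul,
      ← h3 s hs, ← h3' s hs]; ring

lemma Rp.mul {z z' : RatFunc ℂ} {F F' : ℝ → ℂ} (h : Rp z F) (h' : Rp z' F') :
    Rp (z * z') (fun s => F s * F' s) := by
  obtain ⟨A, D, h1, h2, h3⟩ := h
  obtain ⟨A', D', h1', h2', h3'⟩ := h'
  refine ⟨A * A', D * D', fun s hs => ?_, ?_, fun s hs => ?_⟩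
  · rw [Polynomial.eval_mul]; exact mul_ne_zero (h1 s hs) (h1' s hs)
  · rw [map_mul, map_mul, ← h2, ← h2']; ring
  · rw [Polynomial.eval_mul, Polynomial.eval_mul, ← h3 s hs, ← h3' s hs]; ring

lemma Rp.sum {ι : Type*} (t : Finset ι) (z : ι → RatFunc ℂ) (F : ι → ℝ → ℂ)
    (h : ∀ i ∈ t, Rp (z i) (F i)) : Rp (∑ i ∈ t, z i) (fun s => ∑ i ∈ t, F i s) := by
  classical
  induction t using Finset.induction_on with
  | empty => simpa using Rp.zero
  | insert a t ha ih =>
    simp only [Finset.sum_insert ha]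
    exact (h a (by simp)).add (ih fun i hi => h i (by simp [hi]))

lemma Rp.prod {ι : Type*} (t : Finset ι) (z : ι → RatFunc ℂ) (F : ι → ℝ → ℂ)
    (h : ∀ i ∈ t, Rp (z i) (F i)) : Rp (∏ i ∈ t, z i) (fun s => ∏ i ∈ t, F i s) := by
  classical
  induction t using Finset.induction_on with
  | empty => simpa using Rp.poly 1
  | insert a t ha ih =>
    simp only [Finset.prod_insert ha]
    exact (h a (by simp)).mul (ih fun i hi => h i (by simp [hi]))

lemma Rp.inv (L : Polynomial ℂ) (hne : ∀ s : ℝ, 0 < s → L.eval (s : ℂ) ≠ 0) :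
    Rp ((am L)⁻¹) (fun s => (L.eval (s : ℂ))⁻¹) := by
  have hL0 : L ≠ 0 := by
    rintro rfl
    exact hne 1 one_pos (by simp)
  refine ⟨1, L, hne, ?_, fun s hs => ?_⟩
  · rw [map_one, inv_mul_cancel₀ (am_ne hL0)]
  · rw [inv_mul_cancel₀ (hne s hs)]; simp

lemma Rp.final {z : RatFunc ℂ} {F : ℝ → ℂ} (h : Rp z F) (p Q : Polynomial ℂ) (s1 : ℝ)
    (hb : ∀ s : ℝ, s1 ≤ s → p.eval (s : ℂ) * F s = Q.eval (s : ℂ)) : am p * z = am Q := by
  obtain ⟨A, D, h1, h2, h3⟩ := h
  have hD0 : D ≠ 0 := by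
    rintro rfl
    exact h1 1 one_pos (by simp)
  have h4 : p * A = Q * D := by
    refine Polynomial.eq_of_infinite_eval_eq _ _ ?_
    refine ((Set.Ici_infinite (max s1 1)).image Complex.ofReal_injective.injOn).mono ?_
    rintro _ ⟨s, hs, rfl⟩
    have hs' : max s1 1 ≤ s := hs
    have hs0 : 0 < s := by linarith [le_max_right s1 1]
    have hs1 : s1 ≤ s := (le_max_left _ _).trans hs'
    show Polynomial.eval (s:ℂ) (p * A) = Polynomial.eval (s:ℂ) (Q * D)
    rw [Polynomial.eval_mul, Polynomial.eval_mul, ← hb s hs1, ← h3 s hs0]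
    ring
  refine mul_right_cancel₀ (am_ne hD0) ?_
  rw [mul_assoc, h2, ← map_mul, ← map_mul, h4]

/-- the restriction to the line -/
noncomputable def evP (m : Fin (P+1) → ℕ) : MvPolynomial (Fin (P+1)) ℂ →ₐ[ℂ] Polynomial ℂ :=
  aeval (fun k => Polynomial.C ((m k : ℕ) : ℂ) * Polynomial.X)

lemma evP_X (m : Fin (P+1) → ℕ) (k : Fin (P+1)) :
    evP m (X k) = Polynomial.C ((m k : ℕ) : ℂ) * Polynomial.X := by
  unfold evP
  rw [aeval_X]

lemma eval_evP (m : Fin (P+1) → ℕ) (s : ℂ) (p : MvPolynomial (Fin (P+1)) ℂ) :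
    (evP m p).eval s = eval (fun k => (m k : ℂ) * s) p := by
  induction p using MvPolynomial.induction_on with
  | C a =>
    unfold evP
    rw [aeval_C, eval_C, Polynomial.algebraMap_apply, Polynomial.eval_C]
    rfl
  | add p q hp hq => rw [map_add, Polynomial.eval_add, hp, hq, map_add]
  | mul_X p i hp =>
    rw [map_mul, Polynomial.eval_mul, hp, map_mul, eval_X, evP_X]
    simp

/-- the linear form of `ρ` on the line -/
noncomputable def linP (g : Fin r → Fin (P+1)) (v : Fin r → Fin N → ℕ) (m : Fin (P+1) → ℕ)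
    (ρ : Fin N → ℕ) : Polynomial ℂ :=
  Polynomial.C ((∑ k, m k * ordG g v k ρ : ℕ) : ℂ) * Polynomial.X +
    Polynomial.C ((∑ l, ρ l : ℕ) : ℂ)

lemma am_linP (g : Fin r → Fin (P+1)) (v : Fin r → Fin N → ℕ) (m : Fin (P+1) → ℕ)
    (ρ : Fin N → ℕ) : am (linP g v m ρ) =
      ((∑ k, m k * ordG g v k ρ : ℕ) : RatFunc ℂ) * RatFunc.X + ((∑ l, ρ l : ℕ) : RatFunc ℂ) := by
  unfold linP
  rw [map_add, map_mul, RatFunc.algebraMap_X, map_natCast Polynomial.C, map_natCast Polynomial.C,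
    map_natCast, map_natCast]

lemma eval_linP (g : Fin r → Fin (P+1)) (v : Fin r → Fin N → ℕ) (m : Fin (P+1) → ℕ)
    (ρ : Fin N → ℕ) (s : ℂ) : (linP g v m ρ).eval s =
      ((∑ k, m k * ordG g v k ρ : ℕ) : ℂ) * s + ((∑ l, ρ l : ℕ) : ℂ) := by
  unfold linP
  rw [Polynomial.eval_add, Polynomial.eval_mul, Polynomial.eval_C, Polynomial.eval_X,
    Polynomial.eval_C]

lemma linP_ne (g : Fin r → Fin (P+1)) (v : Fin r → Fin N → ℕ) (m : Fin (P+1) → ℕ)
    (ρ : Fin N → ℕ) (hρ : 0 < ∑ l, ρ l) (s : ℝ) (hs : 0 < s) :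
    (linP g v m ρ).eval (s : ℂ) ≠ 0 := by
  rw [eval_linP]
  have h1 : (0 : ℝ) ≤ ((∑ k, m k * ordG g v k ρ : ℕ) : ℝ) * s :=
    mul_nonneg (Nat.cast_nonneg _) hs.le
  have h2 : (0 : ℝ) < ((∑ l, ρ l : ℕ) : ℝ) := by exact_mod_cast hρ
  have h3 : ((∑ k, m k * ordG g v k ρ : ℕ) : ℝ) * s + ((∑ l, ρ l : ℕ) : ℝ) ≠ 0 := by
    linarith
  intro h
  apply h3
  exact_mod_cast h

/-- the sum over the cones of `J` -/
noncomputable def SJP (g : Fin r → Fin (P+1)) (v : Fin r → Fin N → ℕ) (R : SmoothFan N)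
    (m : Fin (P+1) → ℕ) (αx : ℝ) (J : Finset (Fin r)) : RatFunc ℂ :=
  open Classical in
  ∑ σ ∈ R.cones, if J ⊆ minSetG g v σ ∧ σ.card + J.card = P + N + 1 ∧ Inc αx σ then
    ∏ ρ ∈ σ, (am (linP g v m ρ))⁻¹ else 0

/-- the sum over the cones of `J`, with the constant of the limit -/
noncomputable def LJP (g : Fin r → Fin (P+1)) (v : Fin r → Fin N → ℕ) (θ : Fin r → ℝ)
    (R : SmoothFan N) (m : Fin (P+1) → ℕ) (αx : ℝ) (J : Finset (Fin r)) : RatFunc ℂ :=
  open Classical in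
  ∑ σ ∈ R.cones, if J ⊆ minSetG g v σ ∧ σ.card + J.card = P + N + 1 ∧
      (∃ ρ ∈ σ, ∃ k, ordG g v k ρ ≠ 0) ∧ Inc αx σ ∧ AdmC g v θ J then
    am (Polynomial.C ((idxC g v J : ℂ)⁻¹)) * ∏ ρ ∈ σ, (am (linP g v m ρ))⁻¹ else 0

lemma Rp_LJP (g : Fin r → Fin (P+1)) (v : Fin r → Fin N → ℕ) (θ : Fin r → ℝ)
    (R : SmoothFan N) (m : Fin (P+1) → ℕ) (αx : ℝ) (J : Finset (Fin r)) :
    Rp (LJP g v θ R m αx J) (fun s => limP g v θ R m αx J s) := by
  classical
  unfold LJP limP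
  refine Rp.sum _ _ _ fun σ hσ => ?_
  by_cases h : J ⊆ minSetG g v σ ∧ σ.card + J.card = P + N + 1 ∧
      (∃ ρ ∈ σ, ∃ k, ordG g v k ρ ≠ 0) ∧ Inc αx σ ∧ AdmC g v θ J
  · simp only [if_pos h]
    refine Rp.mul (by simpa using Rp.poly (Polynomial.C ((idxC g v J : ℂ)⁻¹))) ?_
    refine Rp.prod σ _ (fun ρ s => (((∑ k, m k * ordG g v k ρ : ℕ) : ℂ) * (s : ℂ) +
      ((∑ l, ρ l : ℕ) : ℂ))⁻¹) fun ρ hρ => ?_
    have hp := rho_pos R σ hσ ρ hρ
    have h1 := Rp.inv (linP g v m ρ) (linP_ne g v m ρ hp)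
    simpa only [eval_linP] using h1
  · simp only [if_neg h]
    exact Rp.zero

lemma idx_id (n : ℕ) : (n : RatFunc ℂ) ^ 2 * am (Polynomial.C ((n : ℂ)⁻¹)) = (n : RatFunc ℂ) := by
  have h1 : (n : RatFunc ℂ) = am (Polynomial.C (n : ℂ)) := by
    rw [map_natCast Polynomial.C, map_natCast]
  rw [h1, ← map_pow, ← map_mul, ← map_pow, ← map_mul]
  congr 2
  by_cases hn : (n : ℂ) = 0
  · rw [hn]
    simp
  · field_simp

open Classical in
lemma zeta_eqP (loc : Prop) (g : Fin r → Fin (P+1)) (v : Fin r → Fin N → ℕ) (θ : Fin r → ℝ)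
    (R : SmoothFan N) (m : Fin (P+1) → ℕ) (αx : ℝ) (hαx : αx ≠ 0) (hloc : αx < 0 ↔ loc) :
    (∏ k ∈ mulS g, am (Polynomial.C ((m k : ℕ) : ℂ) * Polynomial.X + 1)) *
      topZetaP loc g v θ m R =
      ∑ J : Finset (Fin r), if (∀ k, ∃ j ∈ J, g j = k) ∧ AdmC g v θ J then
        (-1) ^ (J.card + (P + 1)) * (idxC g v J : RatFunc ℂ) *
          am (evP m (hJ g J)) * SJP g v R m αx J else 0 := by
  have hinc : ∀ σ : Finset (Fin N → ℕ), (loc → ∀ l, ∃ ρ ∈ σ, ρ l ≠ 0) ↔ Inc αx σ := by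
    intro σ
    unfold Inc
    rw [← hloc]
    constructor
    · intro h
      rcases lt_or_gt_of_ne hαx with h1 | h1
      · exact Or.inr (h h1)
      · exact Or.inl h1
    · rintro (h | h) h1
      · exact absurd h1 (not_lt.2 h.le)
      · exact h
  set x : Fin (P+1) → RatFunc ℂ := fun k => (m k : RatFunc ℂ) * RatFunc.X with hx
  have hx1 : ∀ k, am (Polynomial.C ((m k : ℕ) : ℂ) * Polynomial.X + 1) = x k + 1 := fun k => by
    rw [map_add, map_one, map_mul, RatFunc.algebraMap_X, map_natCast Polynomial.C, map_natCast]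
  have hx2 : ∀ k, am (evP m (X k)) = x k := fun k => by
    rw [evP_X, map_mul, RatFunc.algebraMap_X, map_natCast Polynomial.C, map_natCast]
  have hx3 : ∀ k, am (evP m (X k + 1)) = x k + 1 := fun k => by
    rw [map_add, map_one, map_add, map_one, hx2]
  have hx0 : ∀ k, x k + 1 ≠ 0 := by
    intro k
    rw [← hx1]
    apply am_ne
    intro h
    have h1 := congrArg (Polynomial.eval 0) h
    simp at h1
  have hw : ∀ J : Finset (Fin r), (∀ k, ∃ j ∈ J, g j = k) →
      am (evP m (hJ g J)) =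
      (∏ k ∈ typeG g J, x k) * ∏ k ∈ mulS g \ typeG g J, (x k + 1) := by
    intro J hJJ
    rw [hJ_eq g J hJJ, map_mul, map_prod, map_prod, map_mul, map_prod, map_prod]
    simp only [hx3, hx2]
  have hE : (∏ k ∈ mulS g, am (Polynomial.C ((m k : ℕ) : ℂ) * Polynomial.X + 1)) =
      ∏ k ∈ mulS g, (x k + 1) := by
    simp only [hx1]
  rw [hE]
  -- one cone
  have h1 : ∀ σ : Finset (Fin N → ℕ), (∏ k ∈ mulS g, (x k + 1)) *
      (∑ K : Finset (Fin (P+1)), ((chiStrG g v θ σ K : ℤ) : RatFunc ℂ) *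
        ∏ k ∈ K, (x k + 1)⁻¹) =
      ∑ J ∈ cellsG g v θ σ, (-1) ^ (N + σ.card) * (idxC g v J : RatFunc ℂ) *
        am (evP m (hJ g J)) := by
    intro σ
    rw [chiStr_sum g v θ σ (fun k => (x k + 1)⁻¹), Finset.mul_sum]
    have h2 : ∀ T : Finset (Fin (P+1)), (∏ k ∈ mulS g, (x k + 1)) *
        (((chiG g v θ σ T : ℤ) : RatFunc ℂ) * ∏ k ∈ T, ((x k + 1)⁻¹ - 1)) =
        ∑ J ∈ (cellsG g v θ σ).filter (fun J => typeG g J = T),
          (-1) ^ (N + σ.card) * (idxC g v J : RatFunc ℂ) * am (evP m (hJ g J)) := by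
      intro T
      by_cases hT : T ⊆ mulS g
      · rw [mul_left_comm, prod_id2 g x hx0 T hT]
        have h3 : ∑ J ∈ (cellsG g v θ σ).filter (fun J => typeG g J = T),
            (-1) ^ (N + σ.card) * (idxC g v J : RatFunc ℂ) * am (evP m (hJ g J)) =
            ∑ J ∈ (cellsG g v θ σ).filter (fun J => typeG g J = T),
            (-1) ^ (N + σ.card) * (idxC g v J : RatFunc ℂ) *
              ((∏ k ∈ T, x k) * ∏ k ∈ mulS g \ T, (x k + 1)) := by
          refine Finset.sum_congr rfl fun J hJJ => ?_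
          rw [Finset.mem_filter] at hJJ
          have h4 := hJJ.1
          unfold cellsG at h4
          rw [Finset.mem_filter] at h4
          rw [hw J h4.2.1, hJJ.2]
        rw [h3, ← Finset.sum_mul, ← Finset.mul_sum, ← mul_assoc]
        congr 1
        unfold chiG mvG
        push_cast
        have h4 : ((-1 : RatFunc ℂ)) ^ T.card * (-1) ^ T.card = 1 := by
          rw [← mul_pow]; simp
        rw [pow_add _ (N + σ.card)]
        linear_combination ((-1 : RatFunc ℂ) ^ (N + σ.card) *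
          ∑ J ∈ (cellsG g v θ σ).filter (fun J => typeG g J = T),
            (idxC g v J : RatFunc ℂ)) * h4
      · have h3 : (cellsG g v θ σ).filter (fun J => typeG g J = T) = ∅ := by
          rw [Finset.filter_eq_empty_iff]
          intro J _ hJT
          exact hT (hJT ▸ type_sub g J)
        have h4 : chiG g v θ σ T = 0 := by
          unfold chiG mvG
          rw [h3]
          simp
        rw [h3, h4]
        simp
    rw [Finset.sum_congr rfl fun T _ => h2 T]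
    exact Finset.sum_fiberwise _ _ _
  unfold topZetaP
  rw [Finset.mul_sum, Finset.sum_filter]
  have h5 : ∀ σ ∈ R.cones, (if loc → ∀ l, ∃ ρ ∈ σ, ρ l ≠ 0 then (∏ k ∈ mulS g, (x k + 1)) *
      ((∑ K : Finset (Fin (P+1)), ((chiStrG g v θ σ K : ℤ) : RatFunc ℂ) *
        ∏ k ∈ K, ((m k : RatFunc ℂ) * RatFunc.X + 1)⁻¹) *
        ∏ ρ ∈ σ, (((∑ k, m k * ordG g v k ρ : ℕ) : RatFunc ℂ) * RatFunc.X +
          ((∑ l, ρ l : ℕ) : RatFunc ℂ))⁻¹) else 0) =
      ∑ J : Finset (Fin r), if (∀ k, ∃ j ∈ J, g j = k) ∧ AdmC g v θ J then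
        (-1) ^ (J.card + (P + 1)) * (idxC g v J : RatFunc ℂ) *
          am (evP m (hJ g J)) *
          (if J ⊆ minSetG g v σ ∧ σ.card + J.card = P + N + 1 ∧ Inc αx σ then
            ∏ ρ ∈ σ, (am (linP g v m ρ))⁻¹ else 0) else 0 := by
    intro σ _
    by_cases hI : Inc αx σ
    · rw [if_pos ((hinc σ).2 hI)]
      have e0 : ∀ ρ : Fin N → ℕ, (((∑ k, m k * ordG g v k ρ : ℕ) : RatFunc ℂ) * RatFunc.X +
          ((∑ l, ρ l : ℕ) : RatFunc ℂ))⁻¹ = (am (linP g v m ρ))⁻¹ := fun ρ => by rw [am_linP]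
      rw [Finset.prod_congr rfl fun ρ _ => e0 ρ, ← mul_assoc]
      have e1 := h1 σ
      simp only [hx] at e1
      simp only [hx]
      rw [e1, Finset.sum_mul]
      unfold cellsG
      rw [Finset.sum_filter]
      have h6 : (minSetG g v σ).powerset = Finset.univ.filter (fun J => J ⊆ minSetG g v σ) := by
        ext J
        simp
      rw [h6, Finset.sum_filter]
      refine Finset.sum_congr rfl fun J _ => ?_
      by_cases ha : J ⊆ minSetG g v σ
      · rw [if_pos ha]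
        by_cases hb : (∀ k, ∃ j ∈ J, g j = k) ∧ AdmC g v θ J
        · rw [if_pos hb]
          by_cases hc : σ.card + J.card = P + N + 1
          · rw [if_pos ⟨hb.1, hc, hb.2⟩, if_pos ⟨ha, hc, hI⟩]
            have h7 : ((-1 : RatFunc ℂ)) ^ (N + σ.card) = (-1) ^ (J.card + (P + 1)) := by
              have h8 : (-1 : RatFunc ℂ) ^ (N + σ.card) * (-1) ^ (J.card + (P + 1)) = 1 := by
                rw [← pow_add, show N + σ.card + (J.card + (P + 1)) = 2 * (N + P + 1) by omega,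
                  pow_mul]
                simp
              have h9 : ((-1 : RatFunc ℂ)) ^ (J.card + (P + 1)) * (-1) ^ (J.card + (P + 1)) =
                  1 := by
                rw [← mul_pow]; simp
              linear_combination ((-1 : RatFunc ℂ)) ^ (J.card + (P + 1)) * h8 -
                (-1 : RatFunc ℂ) ^ (N + σ.card) * h9
            rw [h7]
          · rw [if_neg (fun h => hc h.2.1), if_neg (fun h => hc h.2.1), mul_zero]
        · rw [if_neg hb, if_neg (fun h => hb ⟨h.1, h.2.2⟩)]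
      · rw [if_neg ha]
        by_cases hb : (∀ k, ∃ j ∈ J, g j = k) ∧ AdmC g v θ J
        · rw [if_pos hb, if_neg (fun h => ha h.1), mul_zero]
        · rw [if_neg hb]
    · rw [if_neg (fun h => hI ((hinc σ).1 h))]
      symm
      refine Finset.sum_eq_zero fun J _ => ?_
      by_cases hb : (∀ k, ∃ j ∈ J, g j = k) ∧ AdmC g v θ J
      · rw [if_pos hb, if_neg (fun h => hI h.2.2), mul_zero]
      · rw [if_neg hb]
  rw [Finset.sum_congr rfl h5, Finset.sum_comm]
  refine Finset.sum_congr rfl fun J _ => ?_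
  by_cases hb : (∀ k, ∃ j ∈ J, g j = k) ∧ AdmC g v θ J
  · simp only [if_pos hb]
    rw [← Finset.mul_sum]
    rfl
  · simp only [if_neg hb, Finset.sum_const_zero]

/-- splitting off the polynomial part -/
lemma SJP_split (g : Fin r → Fin (P+1)) (v : Fin r → Fin N → ℕ) (θ : Fin r → ℝ)
    (R : SmoothFan N) (m : Fin (P+1) → ℕ) (αx : ℝ) (J : Finset (Fin r)) (hA : AdmC g v θ J) :
    ∃ q : Polynomial ℂ, (idxC g v J : RatFunc ℂ) * SJP g v R m αx J =
      (idxC g v J : RatFunc ℂ) ^ 2 * LJP g v θ R m αx J + am q := by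
  classical
  have h1 : ∀ σ ∈ R.cones, ∃ q : Polynomial ℂ,
      (idxC g v J : RatFunc ℂ) * (if J ⊆ minSetG g v σ ∧ σ.card + J.card = P + N + 1 ∧
          Inc αx σ then ∏ ρ ∈ σ, (am (linP g v m ρ))⁻¹ else 0) =
      (idxC g v J : RatFunc ℂ) ^ 2 * (if J ⊆ minSetG g v σ ∧ σ.card + J.card = P + N + 1 ∧
        (∃ ρ ∈ σ, ∃ k, ordG g v k ρ ≠ 0) ∧ Inc αx σ ∧ AdmC g v θ J then
        am (Polynomial.C ((idxC g v J : ℂ)⁻¹)) *
          ∏ ρ ∈ σ, (am (linP g v m ρ))⁻¹ else 0) + am q := by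
    intro σ hσ
    by_cases h2 : J ⊆ minSetG g v σ ∧ σ.card + J.card = P + N + 1 ∧ Inc αx σ
    · by_cases h3 : ∃ ρ ∈ σ, ∃ k, ordG g v k ρ ≠ 0
      · refine ⟨0, ?_⟩
        rw [if_pos h2, if_pos ⟨h2.1, h2.2.1, h3, h2.2.2, hA⟩, map_zero, add_zero, ← mul_assoc,
          idx_id]
      · push Not at h3
        refine ⟨Polynomial.C (idxC g v J : ℂ) *
          ∏ ρ ∈ σ, Polynomial.C (((∑ l, ρ l : ℕ) : ℂ)⁻¹), ?_⟩
        rw [if_pos h2, if_neg (fun h => by
          obtain ⟨ρ, hρ, k, hk⟩ := h.2.2.1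
          exact hk (h3 ρ hρ k)), mul_zero, zero_add, map_mul, map_prod]
        have e1 : am (Polynomial.C (idxC g v J : ℂ)) = (idxC g v J : RatFunc ℂ) := by
          rw [map_natCast Polynomial.C, map_natCast]
        rw [e1]
        congr 1
        refine Finset.prod_congr rfl fun ρ hρ => ?_
        have e2 : linP g v m ρ = Polynomial.C ((∑ l, ρ l : ℕ) : ℂ) := by
          unfold linP
          rw [Finset.sum_eq_zero (f := fun k => m k * ordG g v k ρ)
            (fun k _ => by rw [h3 ρ hρ k, mul_zero])]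
          simp
        have e3 : ((∑ l, ρ l : ℕ) : ℂ) ≠ 0 := by
          exact_mod_cast (rho_pos R σ hσ ρ hρ).ne'
        rw [e2]
        refine inv_eq_of_mul_eq_one_right ?_
        rw [← map_mul, ← Polynomial.C_mul, mul_inv_cancel₀ e3, Polynomial.C_1, map_one]
    · refine ⟨0, ?_⟩
      rw [if_neg h2, if_neg (fun h => h2 ⟨h.1, h.2.1, h.2.2.2.1⟩), map_zero, mul_zero, mul_zero,
        add_zero]
  choose! q hq using h1
  refine ⟨∑ σ ∈ R.cones, q σ, ?_⟩
  unfold SJP LJP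
  rw [Finset.mul_sum, Finset.mul_sum, map_sum, ← Finset.sum_add_distrib]
  exact Finset.sum_congr rfl fun σ hσ => hq σ hσ

theorem taskZetaP : Pool.Agent.W423.NX.TaskZetaP := by
  classical
  intro r N P loc g v θ hg R m hm αx hαx hloc p Q s1 hp
  -- the main part
  have hZ1 : am p *
      (∑ J ∈ Finset.univ.filter (fun J : Finset (Fin r) => ∀ k, ∃ j ∈ J, g j = k),
        am (Polynomial.C ((-1) ^ J.card * (idxC g v J : ℂ) ^ 2) * evP m (hJ g J)) *
          LJP g v θ R m αx J) = am Q := by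
    refine Rp.final (Rp.sum _ _ _ fun J _ => (Rp.poly _).mul (Rp_LJP g v θ R m αx J)) p Q s1 ?_
    intro s hs
    rw [← hp s hs]
    congr 1
    refine Finset.sum_congr rfl fun J _ => ?_
    rw [Polynomial.eval_mul, Polynomial.eval_C, eval_evP]
  have hsplit : ∀ J : Finset (Fin r), ∃ q : Polynomial ℂ, AdmC g v θ J →
      (idxC g v J : RatFunc ℂ) * SJP g v R m αx J =
      (idxC g v J : RatFunc ℂ) ^ 2 * LJP g v θ R m αx J + am q := by
    intro J
    by_cases h : AdmC g v θ J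
    · obtain ⟨q, hq⟩ := SJP_split g v θ R m αx J h
      exact ⟨q, fun _ => hq⟩
    · exact ⟨0, fun h' => absurd h' h⟩
  choose q hq using hsplit
  have hE := zeta_eqP loc g v θ R m αx hαx hloc
  refine ⟨(∏ k ∈ (Finset.univ : Finset (Fin (P+1))) \ mulS g,
      (Polynomial.C ((m k : ℕ) : ℂ) * Polynomial.X + 1)) *
    ((-1) ^ (P + 1) * Q + p * ∑ J : Finset (Fin r),
      (if (∀ k, ∃ j ∈ J, g j = k) ∧ AdmC g v θ J then
        (-1) ^ (J.card + (P + 1)) * evP m (hJ g J) * q J else 0)), ?_⟩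
  have h1 : ∀ J : Finset (Fin r), (if (∀ k, ∃ j ∈ J, g j = k) ∧ AdmC g v θ J then
        (-1) ^ (J.card + (P + 1)) * (idxC g v J : RatFunc ℂ) *
          am (evP m (hJ g J)) * SJP g v R m αx J else 0) =
      (-1) ^ (P + 1) * (if ∀ k, ∃ j ∈ J, g j = k then
        am (Polynomial.C ((-1) ^ J.card * (idxC g v J : ℂ) ^ 2) * evP m (hJ g J)) *
          LJP g v θ R m αx J else 0) +
      am (if (∀ k, ∃ j ∈ J, g j = k) ∧ AdmC g v θ J then
        (-1) ^ (J.card + (P + 1)) * evP m (hJ g J) * q J else 0) := by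
    intro J
    by_cases ha : ∀ k, ∃ j ∈ J, g j = k
    · by_cases hb : AdmC g v θ J
      · rw [if_pos ⟨ha, hb⟩, if_pos ha, if_pos ⟨ha, hb⟩]
        have e1 := hq J hb
        have e0 : am (Polynomial.C ((-1) ^ J.card * (idxC g v J : ℂ) ^ 2) * evP m (hJ g J)) =
            am (Polynomial.C ((-1) ^ J.card * (idxC g v J : ℂ) ^ 2)) * am (evP m (hJ g J)) :=
          map_mul _ _ _
        have e4 : am ((-1) ^ (J.card + (P + 1)) * evP m (hJ g J) * q J) =
            (-1) ^ (J.card + (P + 1)) * am (evP m (hJ g J)) * am (q J) := by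
          rw [map_mul, map_mul, map_pow, map_neg, map_one]
        have e2 : am (Polynomial.C ((-1) ^ J.card * (idxC g v J : ℂ) ^ 2)) =
            (-1) ^ J.card * (idxC g v J : RatFunc ℂ) ^ 2 := by
          rw [map_mul, map_pow, map_neg, map_one, map_pow, map_natCast Polynomial.C, map_mul,
            map_pow, map_neg, map_one, map_pow, map_natCast]
        rw [e0, e4, e2, pow_add]
        linear_combination ((-1) ^ J.card * (-1) ^ (P + 1) * am (evP m (hJ g J))) * e1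
      · rw [if_neg (fun h => hb h.2), if_pos ha, if_neg (fun h => hb h.2), map_zero, add_zero]
        have e3 : LJP g v θ R m αx J = 0 := by
          unfold LJP
          exact Finset.sum_eq_zero fun σ _ => if_neg fun h => hb h.2.2.2.2
        rw [e3, mul_zero, mul_zero]
    · rw [if_neg (fun h => ha h.1), if_neg ha, if_neg (fun h => ha h.1), map_zero, mul_zero,
        add_zero]
  rw [Finset.sum_congr rfl fun J _ => h1 J, Finset.sum_add_distrib, ← Finset.mul_sum,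
    ← Finset.sum_filter, ← map_sum] at hE
  have hall : (∏ k : Fin (P+1), (Polynomial.C ((m k : ℕ) : ℂ) * Polynomial.X + 1)) =
      (∏ k ∈ (Finset.univ : Finset (Fin (P+1))) \ mulS g,
        (Polynomial.C ((m k : ℕ) : ℂ) * Polynomial.X + 1)) *
      ∏ k ∈ mulS g, (Polynomial.C ((m k : ℕ) : ℂ) * Polynomial.X + 1) :=
    (Finset.prod_sdiff (Finset.subset_univ _)).symm
  show am _ * topZetaP loc g v θ m R = am _
  rw [hall, map_mul, map_mul, map_prod am _ (mulS g), map_mul, map_add, map_mul am p, map_mul,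
    ← hZ1, map_pow, map_neg, map_one]
  linear_combination (am p * am (∏ k ∈ (Finset.univ : Finset (Fin (P+1))) \ mulS g,
    (Polynomial.C ((m k : ℕ) : ℂ) * Polynomial.X + 1))) * hE

end Pool.Agent.W806.NX
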